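import Pool.Agent.Helper68.VN.GoalsT

/-!
# Project PG (MP_a41896_nt), packet RELP: relations for the reference point
-/

set_option autoImplicit false

open MvPolynomial

namespace Pool.Agent.Helper70.VN.RELP

open Pool.Agent.Helper68.VN
open Pool.Agent.Helper60.HC (Lo)
open NumberField (house)

noncomputable section

variable {K : Type} [Field K] [NumberField K] {σ : Type}

theorem house_zero' : house (0 : K) = 0 := by
  simp [NumberField.house]

theorem house_one' : house (1 : K) = 1 := by
  have := NumberField.house_intCast (K := K) 1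
  simpa using this

/-- the sum of the houses of the coefficients -/
def hsum (P : MvPolynomial σ K) : ℝ := ∑ s ∈ P.support, house (coeff s P)

theorem hsum_eq {P : MvPolynomial σ K} {S : Finset (σ →₀ ℕ)} (h : P.support ⊆ S) :
    hsum P = ∑ s ∈ S, house (coeff s P) := by
  refine Finset.sum_subset h ?_
  intro s _ hs
  rw [notMem_support_iff.1 hs, house_zero']

theorem hsum_nonneg (P : MvPolynomial σ K) : 0 ≤ hsum P :=
  Finset.sum_nonneg fun _ _ => NumberField.house_nonneg _

theorem hsum_add (P Q : MvPolynomial σ K) : hsum (P + Q) ≤ hsum P + hsum Q := by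
  classical
  rw [hsum_eq (support_add (p := P) (q := Q)), hsum_eq (P := P) Finset.subset_union_left,
    hsum_eq (P := Q) (Finset.subset_union_right (s₁ := P.support)), ← Finset.sum_add_distrib]
  apply Finset.sum_le_sum
  intro s _
  rw [coeff_add]
  exact NumberField.house_add_le _ _

theorem hsum_zero : hsum (0 : MvPolynomial σ K) = 0 := by
  simp [hsum]

theorem hsum_sum {ι : Type} (s : Finset ι) (f : ι → MvPolynomial σ K) :
    hsum (∑ i ∈ s, f i) ≤ ∑ i ∈ s, hsum (f i) := by
  classical
  induction s using Finset.induction_on with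
  | empty => simp [hsum_zero]
  | insert a s ha ih =>
    rw [Finset.sum_insert ha, Finset.sum_insert ha]
    exact (hsum_add _ _).trans (add_le_add_right ih _)

theorem hsum_monomial (a : σ →₀ ℕ) (c : K) : hsum (monomial a c) ≤ house c := by
  classical
  rw [hsum_eq (support_monomial_subset (s := a) (a := c)), Finset.sum_singleton, coeff_monomial,
    if_pos rfl]

theorem hsum_mul (P Q : MvPolynomial σ K) : hsum (P * Q) ≤ hsum P * hsum Q := by
  classical
  have h : P * Q = ∑ a ∈ P.support, ∑ b ∈ Q.support,
      monomial (a + b) (coeff a P * coeff b Q) := by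
    conv_lhs => rw [← support_sum_monomial_coeff P, ← support_sum_monomial_coeff Q,
      Finset.sum_mul_sum]
    apply Finset.sum_congr rfl
    intro a _
    apply Finset.sum_congr rfl
    intro b _
    rw [monomial_mul]
  rw [h]
  refine (hsum_sum _ _).trans ?_
  unfold hsum
  rw [Finset.sum_mul_sum]
  apply Finset.sum_le_sum
  intro a _
  refine (hsum_sum _ _).trans ?_
  apply Finset.sum_le_sum
  intro b _
  exact (hsum_monomial _ _).trans (NumberField.house_mul_le _ _)

theorem hsum_one : hsum (1 : MvPolynomial σ K) ≤ 1 := by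
  have h : (1 : MvPolynomial σ K) = monomial 0 1 := rfl
  rw [h]
  exact (hsum_monomial _ _).trans_eq house_one'

theorem hsum_prod {ι : Type} (s : Finset ι) (f : ι → MvPolynomial σ K) :
    hsum (∏ i ∈ s, f i) ≤ ∏ i ∈ s, hsum (f i) := by
  classical
  induction s using Finset.induction_on with
  | empty => simpa using hsum_one (K := K) (σ := σ)
  | insert a s ha ih =>
    rw [Finset.prod_insert ha, Finset.prod_insert ha]
    exact (hsum_mul _ _).trans (mul_le_mul_of_nonneg_left ih (hsum_nonneg _))

theorem hsum_X_pow (h : σ) (n : ℕ) : hsum (X h ^ n : MvPolynomial σ K) ≤ 1 := by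
  rw [X_pow_eq_monomial]
  exact (hsum_monomial _ _).trans_eq house_one'

theorem house_coeff_le (P : MvPolynomial σ K) (s : σ →₀ ℕ) : house (coeff s P) ≤ hsum P := by
  by_cases hs : s ∈ P.support
  · exact Finset.single_le_sum (f := fun s => house (coeff s P))
      (fun _ _ => NumberField.house_nonneg _) hs
  · rw [notMem_support_iff.1 hs, house_zero']
    exact hsum_nonneg _

/-- all coefficients are integral -/
def IntP (P : MvPolynomial σ K) : Prop := ∀ s, IsIntegral ℤ (coeff s P)

theorem IntP.mul {P Q : MvPolynomial σ K} (hP : IntP P) (hQ : IntP Q) : IntP (P * Q) := by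
  classical
  intro s
  rw [coeff_mul]
  exact IsIntegral.sum _ fun a _ => (hP _).mul (hQ _)

theorem IntP.monomial_one (a : σ →₀ ℕ) : IntP (monomial a (1 : K)) := by
  classical
  intro s
  rw [coeff_monomial]
  split_ifs
  · exact isIntegral_one
  · exact isIntegral_zero

theorem IntP.prod {ι : Type} (s : Finset ι) (f : ι → MvPolynomial σ K)
    (h : ∀ i ∈ s, IntP (f i)) : IntP (∏ i ∈ s, f i) := by
  classical
  induction s using Finset.induction_on with
  | empty =>
    rw [Finset.prod_empty]
    exact IntP.monomial_one 0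
  | insert a s ha ih =>
    rw [Finset.prod_insert ha]
    exact (h a (Finset.mem_insert_self _ _)).mul
      (ih fun i hi => h i (Finset.mem_insert_of_mem hi))

variable [Fintype σ] [DecidableEq σ]

/-- exponents with support in `I` -/
def ext (I : Finset σ) (N : ℕ) (u : {h // h ∈ I} → Fin (N + 1)) : σ →₀ ℕ :=
  Finsupp.equivFunOnFinite.symm fun h => if hh : h ∈ I then (u ⟨h, hh⟩).val else 0

theorem ext_apply (I : Finset σ) (N : ℕ) (u : {h // h ∈ I} → Fin (N + 1)) (h : σ) :
    ext I N u h = if hh : h ∈ I then (u ⟨h, hh⟩).val else 0 := rfl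

theorem ext_inj (I : Finset σ) (N : ℕ) : Function.Injective (ext I N) := by
  intro u v huv
  funext h
  have h1 := DFunLike.congr_fun huv h.1
  rw [ext_apply, ext_apply, dif_pos h.2, dif_pos h.2] at h1
  exact Fin.ext h1

theorem support_sub (I : Finset σ) (N : ℕ) (P : MvPolynomial σ K)
    (h1 : ∀ h ∈ I, P.degreeOf h ≤ N) (h2 : ∀ h, h ∉ I → P.degreeOf h = 0) :
    P.support ⊆ Finset.univ.image (ext I N) := by
  intro s hs
  rw [Finset.mem_image]
  refine ⟨fun h => ⟨s h.1, Nat.lt_succ_of_le
    ((degreeOf_le_iff.1 (h1 h.1 h.2)) s hs)⟩, Finset.mem_univ _, ?_⟩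
  ext h
  rw [ext_apply]
  split_ifs with hh
  · rfl
  · exact (Nat.le_zero.1 ((degreeOf_le_iff.1 (h2 h hh).le) s hs)).symm

theorem eval_ext (I : Finset σ) (N : ℕ) (P : MvPolynomial σ K)
    (h1 : ∀ h ∈ I, P.degreeOf h ≤ N) (h2 : ∀ h, h ∉ I → P.degreeOf h = 0) (x : σ → K) :
    eval x P = ∑ u : {h // h ∈ I} → Fin (N + 1),
      coeff (ext I N u) P * ∏ h, x h ^ (ext I N u h) := by
  rw [eval_eq', Finset.sum_subset (support_sub I N P h1 h2), Finset.sum_image]
  · intro u _ v _ huv
    exact ext_inj I N huv
  · intro s _ hs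
    rw [notMem_support_iff.1 hs, zero_mul]

theorem hsum_le (N : ℕ) (B : ℝ) (P : MvPolynomial σ K) (hB : 0 ≤ B)
    (h1 : ∀ h, P.degreeOf h ≤ N) (h2 : ∀ s, house (coeff s P) ≤ B) :
    hsum P ≤ ((N : ℝ) + 1) ^ Fintype.card σ * B := by
  have h3 : P.support.card ≤ (N + 1) ^ Fintype.card σ := by
    refine (Finset.card_le_card (support_sub Finset.univ N P (fun h _ => h1 h)
      (fun h hh => absurd (Finset.mem_univ h) hh))).trans (Finset.card_image_le.trans ?_)
    rw [Finset.card_univ, Fintype.card_fun, Fintype.card_fin, Fintype.card_subtype]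
    simp
  calc hsum P ≤ ∑ s ∈ P.support, B := Finset.sum_le_sum fun s _ => h2 s
    _ = P.support.card * B := by rw [Finset.sum_const, nsmul_eq_mul]
    _ ≤ _ := by
      apply mul_le_mul_of_nonneg_right _ hB
      exact_mod_cast h3

/-- the polynomials `P_(g,t)` -/
def Pgt (I : Finset σ) (R : {i // i ∉ I} → ℕ → ℕ → MvPolynomial σ K) (g : σ → ℕ)
    (t : {i // i ∉ I} → ℕ) : MvPolynomial σ K :=
  (∏ h : {h // h ∈ I}, X h.1 ^ g h.1) * ∏ i : {i // i ∉ I}, R i (g i.1) (t i)

theorem t_RELP (hPSDV : PSDV) : Pool.Agent.Helper68.VN.RELP := by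
  intro K _ _ σ _ _ D0 E
  obtain ⟨C1, hC1, hP⟩ := hPSDV K σ D0 E
  set m := Fintype.card σ with hm
  refine ⟨m * (m * Real.log ((E * D0 : ℕ) + 1) + C1), ?_, ?_⟩
  · have : 0 ≤ Real.log (((E * D0 : ℕ) : ℝ) + 1) :=
      Real.log_nonneg (by have : (0 : ℝ) ≤ ((E * D0 : ℕ) : ℝ) := Nat.cast_nonneg _; linarith)
    positivity
  · intro I0 x0 A hA hn hi
    have hex : ∀ i : {i // i ∉ I0}, ∃ (b : K) (R : ℕ → ℕ → MvPolynomial σ K), b ≠ 0 ∧
        (∀ k t h, (R k t).degreeOf h ≤ E * D0) ∧ (∀ k t h, h ∉ I0 → (R k t).degreeOf h = 0) ∧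
        (∀ k t s, IsIntegral ℤ (coeff s (R k t)) ∧
          NumberField.house (coeff s (R k t)) ≤ Real.exp (C1 * (1 + A))) ∧
        ∀ k ≤ E, b * x0 i.1 ^ k = ∑ t ∈ Finset.range (D0 + 1), eval x0 (R k t) * x0 i.1 ^ t :=
      fun i => hP I0 x0 A i.1 hA i.2 hn (hi i.1 i.2)
    choose b R hb hR1 hR2 hR3 hR4 using hex
    set N := E * (1 + m * D0) with hN
    -- degrees of the polynomials
    have hcard : Fintype.card {i // i ∉ I0} ≤ m := by
      rw [hm]
      exact Fintype.card_subtype_le _
    have hdeg1 : ∀ (g : σ → ℕ) (t : {i // i ∉ I0} → ℕ) (h : σ), g ∈ box σ E →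
        (Pgt I0 R g t).degreeOf h ≤ N := by
      intro g t h hg
      have hgE : ∀ i, g i ≤ E := by
        intro i
        have := Fintype.mem_piFinset.1 hg i
        exact Nat.lt_succ_iff.1 (Finset.mem_range.1 this)
      have h1 : (∏ h : {h // h ∈ I0}, (X h.1 : MvPolynomial σ K) ^ g h.1).degreeOf h ≤ E := by
        by_cases hh : h ∈ I0
        · refine (degreeOf_prod_le _ _ _).trans ?_
          rw [Finset.sum_eq_single_of_mem ⟨h, hh⟩ (Finset.mem_univ _)]
          · refine (degreeOf_pow_le _ _ _).trans ?_
            rw [degreeOf_X, if_pos rfl, mul_one]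
            exact hgE h
          · intro j _ hj
            refine Nat.le_zero.1 ((degreeOf_pow_le _ _ _).trans ?_)
            rw [degreeOf_X, if_neg, mul_zero]
            intro hc
            apply hj
            exact Subtype.ext hc.symm
        · refine (degreeOf_prod_le _ _ _).trans ?_
          rw [Finset.sum_eq_zero]
          · exact Nat.zero_le _
          · intro j _
            refine Nat.le_zero.1 ((degreeOf_pow_le _ _ _).trans ?_)
            rw [degreeOf_X, if_neg, mul_zero]
            intro hc
            apply hh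
            rw [hc]
            exact j.2
      have h2 : (∏ i : {i // i ∉ I0}, R i (g i.1) (t i)).degreeOf h ≤ m * (E * D0) := by
        refine (degreeOf_prod_le _ _ _).trans ?_
        refine (Finset.sum_le_card_nsmul _ _ (E * D0) (fun i _ => hR1 i _ _ _)).trans ?_
        rw [Finset.card_univ, smul_eq_mul]
        exact Nat.mul_le_mul_right _ hcard
      refine (degreeOf_mul_le _ _ _).trans ((add_le_add h1 h2).trans_eq ?_)
      rw [hN]
      ring
    have hdeg2 : ∀ (g : σ → ℕ) (t : {i // i ∉ I0} → ℕ) (h : σ), h ∉ I0 →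
        (Pgt I0 R g t).degreeOf h = 0 := by
      intro g t h hh
      refine Nat.le_zero.1 ((degreeOf_mul_le _ _ _).trans ?_)
      have h1 : (∏ h : {h // h ∈ I0}, (X h.1 : MvPolynomial σ K) ^ g h.1).degreeOf h ≤ 0 := by
        refine (degreeOf_prod_le _ _ _).trans ?_
        rw [Finset.sum_eq_zero]
        intro j _
        refine Nat.le_zero.1 ((degreeOf_pow_le _ _ _).trans ?_)
        rw [degreeOf_X, if_neg, mul_zero]
        intro hc
        apply hh
        rw [hc]
        exact j.2
      have h2 : (∏ i : {i // i ∉ I0}, R i (g i.1) (t i)).degreeOf h ≤ 0 := by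
        refine (degreeOf_prod_le _ _ _).trans ?_
        rw [Finset.sum_eq_zero]
        intro i _
        exact hR2 i _ _ _ hh
      exact add_le_add h1 h2
    refine ⟨({i // i ∉ I0} → Fin (D0 + 1)) × ({h // h ∈ I0} → Fin (N + 1)), inferInstance,
      fun tu g => coeff (ext I0 N tu.2) (Pgt I0 R g fun i => (tu.1 i).val), ?_, ?_⟩
    · rw [Fintype.card_prod, Fintype.card_fun, Fintype.card_fun, Fintype.card_fin,
        Fintype.card_fin, Fintype.card_coe]
      exact Nat.mul_le_mul_right _ (Nat.pow_le_pow_right (Nat.succ_pos _) hcard)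
    · refine ⟨?_, ?_, ?_⟩
      · intro u g
        refine IntP.mul (IntP.prod _ _ ?_) (IntP.prod _ _ ?_) _
        · intro h _
          rw [X_pow_eq_monomial]
          exact IntP.monomial_one _
        · intro i _ s
          exact (hR3 i _ _ s).1
      · intro u g
        refine (house_coeff_le _ _).trans ((hsum_mul _ _).trans ?_)
        have h1 : hsum (∏ h : {h // h ∈ I0}, (X h.1 : MvPolynomial σ K) ^ g h.1) ≤ 1 := by
          refine (hsum_prod _ _).trans ?_
          exact Finset.prod_le_one (fun _ _ => hsum_nonneg _) (fun h _ => hsum_X_pow _ _)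
        set β : ℝ := (((E * D0 : ℕ) : ℝ) + 1) ^ m * Real.exp (C1 * (1 + A)) with hβ
        have hE1 : (1 : ℝ) ≤ ((E * D0 : ℕ) : ℝ) + 1 := by
          have : (0 : ℝ) ≤ ((E * D0 : ℕ) : ℝ) := Nat.cast_nonneg _
          linarith
        have hβ1 : 1 ≤ β := by
          have h3 : (1 : ℝ) ≤ (((E * D0 : ℕ) : ℝ) + 1) ^ m := one_le_pow₀ hE1
          have h4 : (1 : ℝ) ≤ Real.exp (C1 * (1 + A)) := Real.one_le_exp (by positivity)
          rw [hβ]
          exact one_le_mul_of_one_le_of_one_le h3 h4
        have h2 : hsum (∏ i : {i // i ∉ I0}, R i (g i.1) (u.1 i).val) ≤ β ^ m := by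
          refine (hsum_prod _ _).trans ?_
          calc ∏ i : {i // i ∉ I0}, hsum (R i (g i.1) (u.1 i).val)
              ≤ ∏ _i : {i // i ∉ I0}, β := by
                apply Finset.prod_le_prod
                · intro i _
                  exact hsum_nonneg _
                · intro i _
                  exact hsum_le (E * D0) (Real.exp (C1 * (1 + A))) _ (Real.exp_pos _).le
                    (hR1 i _ _) (fun s => (hR3 i _ _ s).2)
            _ = β ^ Fintype.card {i // i ∉ I0} := by
                rw [Finset.prod_const, Finset.card_univ]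
            _ ≤ β ^ m := pow_le_pow_right₀ hβ1 hcard
        have h3 : β ^ m ≤ Real.exp (m * (m * Real.log ((E * D0 : ℕ) + 1) + C1) * (1 + A)) := by
          have hlog : 0 ≤ Real.log (((E * D0 : ℕ) : ℝ) + 1) := Real.log_nonneg hE1
          have h4 : β ≤ Real.exp ((m * Real.log ((E * D0 : ℕ) + 1) + C1) * (1 + A)) := by
            rw [hβ]
            have h5 : (((E * D0 : ℕ) : ℝ) + 1) ^ m =
                Real.exp (m * Real.log ((E * D0 : ℕ) + 1)) := by
              rw [Real.exp_nat_mul, Real.exp_log (by linarith)]
            rw [h5, ← Real.exp_add]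
            apply Real.exp_le_exp.2
            have h6 : 0 ≤ (m : ℝ) * Real.log ((E * D0 : ℕ) + 1) * A := by positivity
            nlinarith
          calc β ^ m ≤ (Real.exp ((m * Real.log ((E * D0 : ℕ) + 1) + C1) * (1 + A))) ^ m :=
                pow_le_pow_left₀ (by linarith) h4 m
            _ = _ := by
                rw [← Real.exp_nat_mul]
                congr 1
                ring
        calc hsum (∏ h : {h // h ∈ I0}, (X h.1 : MvPolynomial σ K) ^ g h.1) *
              hsum (∏ i : {i // i ∉ I0}, R i (g i.1) (u.1 i).val) ≤ 1 * β ^ m :=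
                mul_le_mul h1 h2 (hsum_nonneg _) zero_le_one
          _ = β ^ m := one_mul _
          _ ≤ _ := h3
      · intro G hG
        have hB : (∏ i : {i // i ∉ I0}, b i) ≠ 0 := Finset.prod_ne_zero_iff.2 fun i _ => hb i
        have key : (∏ i : {i // i ∉ I0}, b i) * ∑ g ∈ box σ E, G g * ∏ i, x0 i ^ g i = 0 := by
          have h1 : ∀ g ∈ box σ E, (∏ i : {i // i ∉ I0}, b i) * ∏ i, x0 i ^ g i =
              ∑ t : {i // i ∉ I0} → Fin (D0 + 1),
                (∏ i : {i // i ∉ I0}, x0 i.1 ^ (t i).val) *
                  eval x0 (Pgt I0 R g fun i => (t i).val) := by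
            intro g hg
            have hgE : ∀ i, g i ≤ E := by
              intro i
              have := Fintype.mem_piFinset.1 hg i
              exact Nat.lt_succ_iff.1 (Finset.mem_range.1 this)
            have h2 : ∏ i, x0 i ^ g i = (∏ h : {h // h ∈ I0}, x0 h.1 ^ g h.1) *
                ∏ i : {i // i ∉ I0}, x0 i.1 ^ g i.1 := by
              rw [← Fintype.prod_subtype_mul_prod_subtype (fun h => h ∈ I0)
                (fun i => x0 i ^ g i)]
              congr 1
              apply Finset.prod_congr _ fun _ _ => rfl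
              ext a
              simp
            have h3 : (∏ i : {i // i ∉ I0}, b i) * ∏ i : {i // i ∉ I0}, x0 i.1 ^ g i.1 =
                ∑ t : {i // i ∉ I0} → Fin (D0 + 1), ∏ i : {i // i ∉ I0},
                  (eval x0 (R i (g i.1) (t i).val) * x0 i.1 ^ (t i).val) := by
              rw [← Finset.prod_mul_distrib]
              have h31 : ∀ i : {i // i ∉ I0}, b i * x0 i.1 ^ g i.1 = ∑ t : Fin (D0 + 1),
                  (eval x0 (R i (g i.1) t.val) * x0 i.1 ^ t.val) := by
                intro i
                rw [hR4 i (g i.1) (hgE i.1), Finset.sum_range]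
              rw [Finset.prod_congr rfl (fun i _ => h31 i), Finset.prod_univ_sum,
                Fintype.piFinset_univ]
            rw [h2, mul_left_comm, h3, Finset.mul_sum]
            apply Finset.sum_congr rfl
            intro t _
            rw [Pgt, map_mul, map_prod, map_prod, Finset.prod_mul_distrib]
            simp only [map_pow, eval_X]
            ring
          have h4 : (∏ i : {i // i ∉ I0}, b i) * ∑ g ∈ box σ E, G g * ∏ i, x0 i ^ g i =
              ∑ t : {i // i ∉ I0} → Fin (D0 + 1), (∏ i : {i // i ∉ I0}, x0 i.1 ^ (t i).val) *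
                ∑ u : {h // h ∈ I0} → Fin (N + 1), (∏ h, x0 h ^ (ext I0 N u h)) *
                  ∑ g ∈ box σ E, coeff (ext I0 N u) (Pgt I0 R g fun i => (t i).val) * G g := by
            calc (∏ i : {i // i ∉ I0}, b i) * ∑ g ∈ box σ E, G g * ∏ i, x0 i ^ g i
                = ∑ g ∈ box σ E, G g * ((∏ i : {i // i ∉ I0}, b i) * ∏ i, x0 i ^ g i) := by
                  rw [Finset.mul_sum]
                  apply Finset.sum_congr rfl
                  intro g _
                  ring
              _ = ∑ g ∈ box σ E, ∑ t : {i // i ∉ I0} → Fin (D0 + 1),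
                    ∑ u : {h // h ∈ I0} → Fin (N + 1),
                    (∏ i : {i // i ∉ I0}, x0 i.1 ^ (t i).val) *
                      ((∏ h, x0 h ^ (ext I0 N u h)) *
                      (coeff (ext I0 N u) (Pgt I0 R g fun i => (t i).val) * G g)) := by
                  apply Finset.sum_congr rfl
                  intro g hg
                  rw [h1 g hg, Finset.mul_sum]
                  apply Finset.sum_congr rfl
                  intro t _
                  rw [eval_ext I0 N _ (fun h _ => hdeg1 g _ h hg) (fun h hh => hdeg2 g _ h hh),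
                    Finset.mul_sum, Finset.mul_sum]
                  apply Finset.sum_congr rfl
                  intro u _
                  ring
              _ = _ := by
                  rw [Finset.sum_comm]
                  apply Finset.sum_congr rfl
                  intro t _
                  rw [Finset.sum_comm, Finset.mul_sum]
                  apply Finset.sum_congr rfl
                  intro u _
                  rw [Finset.mul_sum, Finset.mul_sum]
          rw [h4]
          apply Finset.sum_eq_zero
          intro t _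
          rw [Finset.sum_eq_zero, mul_zero]
          intro u _
          rw [hG (t, u), mul_zero]
        exact (mul_eq_zero.1 key).resolve_left hB

end

end Pool.Agent.Helper70.VN.RELP
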